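import Mathlib

/-!
A haven of order `κ⁺` gives a complete minor on `κ` branch sets.
-/

namespace Pool.Agent.H.MP_e19d8e_co

open Cardinal

variable {V : Type} {X : SimpleGraph V}

/-- reachability avoiding `W` -/
def Rc (X : SimpleGraph V) (W : Set V) (a b : V) : Prop :=
  Relation.ReflTransGen (fun p q => X.Adj p q ∧ q ∉ W) a b

theorem Rc.refl (W : Set V) (a : V) : Rc X W a a := Relation.ReflTransGen.refl

theorem Rc.trans {W : Set V} {a b c : V} (h : Rc X W a b) (h' : Rc X W b c) : Rc X W a c :=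
  Relation.ReflTransGen.trans h h'

theorem Rc.notMem {W : Set V} {a b : V} (h : Rc X W a b) (ha : a ∉ W) : b ∉ W := by
  induction h with
  | refl => exact ha
  | tail _ h _ => exact h.2

theorem Rc.symm {W : Set V} {a b : V} (h : Rc X W a b) (ha : a ∉ W) : Rc X W b a := by
  induction h with
  | refl => exact Rc.refl _ _
  | tail h1 h2 ih => exact Relation.ReflTransGen.head ⟨h2.1.symm, Rc.notMem h1 ha⟩ ih

theorem Rc.mono {W W' : Set V} {a b : V} (h : Rc X W' a b) (hW : W ⊆ W') : Rc X W a b := by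
  induction h with
  | refl => exact Rc.refl _ _
  | tail _ h ih => exact Relation.ReflTransGen.tail ih ⟨h.1, fun t => h.2 (hW t)⟩

theorem Rc.path {W : Set V} {a b : V} (h : Rc X W a b) : ∃ P : Set V, P.Finite ∧ a ∈ P ∧ b ∈ P ∧
    (∀ p ∈ P, Rc X W a p) ∧ ∀ p ∈ P, Rc X Pᶜ a p := by
  induction h with
  | refl =>
    exact ⟨{a}, Set.finite_singleton a, rfl, rfl, fun p hp => hp ▸ Rc.refl _ _,
      fun p hp => hp ▸ Rc.refl _ _⟩
  | @tail b c h1 h2 ih =>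
    obtain ⟨P, p1, p2, p3, p4, p5⟩ := ih
    have sub : (insert c P)ᶜ ⊆ Pᶜ := Set.compl_subset_compl.2 (Set.subset_insert _ _)
    refine ⟨insert c P, p1.insert c, Or.inr p2, Or.inl rfl, ?_, ?_⟩
    · rintro p (rfl | hp)
      · exact Relation.ReflTransGen.tail h1 h2
      · exact p4 p hp
    · rintro p (rfl | hp)
      · exact Relation.ReflTransGen.tail ((p5 b p3).mono sub) ⟨h2.1, fun t => t (Or.inl rfl)⟩
      · exact (p5 p hp).mono sub

/-- connected vertex sets -/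
def Conn (X : SimpleGraph V) (B : Set V) : Prop := ∃ a ∈ B, ∀ b ∈ B, Rc X Bᶜ a b

theorem Conn.connected {B : Set V} {X' : SimpleGraph V} (hX : X ≤ X') (h : Conn X B) :
    (X'.induce B).Connected := by
  obtain ⟨a, ha, h⟩ := h
  have key : ∀ b, Rc X Bᶜ a b → ∀ hb : b ∈ B, (X'.induce B).Reachable ⟨a, ha⟩ ⟨b, hb⟩ := by
    intro b hb
    induction hb with
    | refl => intro _; rfl
    | @tail b c h1 h2 ih =>
      intro hc
      have hb : b ∈ B := not_not.1 (Rc.notMem h1 (fun t => t ha))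
      exact (ih hb).trans (SimpleGraph.Adj.reachable (by exact hX h2.1))
  haveI : Nonempty B := ⟨⟨a, ha⟩⟩
  exact ⟨fun x y => (key x (h x x.2) x.2).symm.trans (key y (h y y.2) y.2)⟩

theorem haven (κ : Cardinal.{0}) (hκ : ℵ₀ ≤ κ) (β : Set V → Set V)
    (h1 : ∀ W : Set V, #W ≤ κ → (β W).Nonempty) (h0 : ∀ W, ∀ a ∈ β W, a ∉ W)
    (h2 : ∀ W, ∀ a ∈ β W, ∀ b, Rc X W a b → b ∈ β W)
    (h3 : ∀ W, ∀ a ∈ β W, ∀ b ∈ β W, Rc X W a b)
    (h4 : ∀ W W', W ⊆ W' → β W' ⊆ β W) (U : Type) (hU : #U ≤ κ) :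
    ∃ B : U → Set V, (∀ u, Conn X (B u)) ∧ ∀ u v, u ≠ v → Disjoint (B u) (B v) ∧
      ∃ b ∈ B u, ∃ c ∈ B v, X.Adj b c := by
  classical
  have un : ∀ A B : Set V, #A ≤ κ → #B ≤ κ → #(A ∪ B : Set V) ≤ κ := fun A B hA hB =>
    (mk_union_le A B).trans (add_le_of_le hκ hA hB)
  have iun : ∀ (I : Type) (F : I → Set V), #I ≤ κ → (∀ i, #(F i) ≤ κ) → #(⋃ i, F i) ≤ κ :=
    fun I F hI hF => (mk_iUnion_le F).trans (mul_le_of_le hκ hI (ciSup_le' hF))
  have hull : ∀ W N : Set V, #W ≤ κ → #N ≤ κ → N ⊆ β W →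
      ∃ B : Set V, #B ≤ κ ∧ N ⊆ B ∧ B ⊆ β W ∧ Conn X B := by
    intro W N hW hN hs
    obtain ⟨a, ha⟩ := h1 W hW
    choose P p1 p2 p3 p4 p5 using fun n : N => (h3 W a ha n (hs n.2)).path
    refine ⟨{a} ∪ ⋃ n, P n, un _ _ (by simpa using le_trans one_le_aleph0 hκ)
      (iun _ _ hN fun n => le_trans (p1 n).lt_aleph0.le hκ), ?_, ?_, a, Or.inl rfl, ?_⟩
    · exact fun n hn => Or.inr (Set.mem_iUnion.2 ⟨⟨n, hn⟩, p3 _⟩)
    · rintro p (rfl | hp)
      · exact ha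
      · obtain ⟨n, hn⟩ := Set.mem_iUnion.1 hp
        exact h2 W a ha p (p4 n p hn)
    · rintro p (rfl | hp)
      · exact Rc.refl _ _
      · obtain ⟨n, hn⟩ := Set.mem_iUnion.1 hp
        exact (p5 n p hn).mono (Set.compl_subset_compl.2 fun q hq =>
          Or.inr (Set.mem_iUnion.2 ⟨n, hq⟩))
  let Touch : Set V → Prop := fun B => ∀ W : Set V, #W ≤ κ → B ⊆ W → ∃ b ∈ B, ∃ c ∈ β W, X.Adj b c
  have touch : ∀ W N : Set V, #W ≤ κ → #N ≤ κ → N ⊆ β W →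
      ∃ B : Set V, #B ≤ κ ∧ N ⊆ B ∧ B ⊆ β W ∧ Conn X B ∧ Touch B := by
    intro W N hW hN hs
    by_contra hne
    let Ok : Set V → Prop := fun B => #B ≤ κ ∧ N ⊆ B ∧ B ⊆ β W ∧ Conn X B
    have step : ∀ B, Ok B → ∃ (T B' : Set V), #T ≤ κ ∧ B ⊆ T ∧ (∀ b ∈ B, ∀ c ∈ β T, ¬ X.Adj b c) ∧
        Ok B' ∧ T ∩ β W ⊆ B' := by
      intro B hB
      have : ¬ Touch B := fun t => hne ⟨B, hB.1, hB.2.1, hB.2.2.1, hB.2.2.2, t⟩
      simp only [Touch] at this
      push Not at this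
      obtain ⟨T, t1, t2, t3⟩ := this
      obtain ⟨B', b1, b2, b3, b4⟩ := hull W (T ∩ β W) hW
        ((mk_le_mk_of_subset Set.inter_subset_left).trans t1) Set.inter_subset_right
      exact ⟨T, B', t1, t2, t3, ⟨b1, fun n hn => b2 ⟨t2 (hB.2.1 hn), hs hn⟩, b3, b4⟩, b2⟩
    choose! T nx s1 s2 s3 s4 s5 using step
    obtain ⟨B0, b0⟩ := hull W N hW hN hs
    let B : ℕ → Set V := fun n => nx^[n] B0
    have Bs : ∀ n, B (n + 1) = nx (B n) := fun n => Function.iterate_succ_apply' nx n B0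
    have Bok : ∀ n, Ok (B n) := by
      intro n
      induction n with
      | zero => exact b0
      | succ n ih => rw [Bs]; exact s4 _ ih
    have hW' : #(W ∪ ⋃ n, T (B n) : Set V) ≤ κ :=
      un _ _ hW (iun _ _ (by rw [mk_nat]; exact hκ) fun n => s1 _ (Bok n))
    obtain ⟨c, hc⟩ := h1 _ hW'
    have hcW : c ∈ β W := h4 _ _ Set.subset_union_left hc
    obtain ⟨a, ha, -⟩ := b0.2.2.2
    have all : ∀ q, Rc X W c q → q ∈ β (W ∪ ⋃ n, T (B n)) := by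
      intro q hq
      induction hq with
      | refl => exact hc
      | @tail p q r1 r2 ih =>
        by_cases hq : q ∈ (W ∪ ⋃ n, T (B n) : Set V)
        · exfalso
          rcases hq with hq | hq
          · exact r2.2 hq
          · obtain ⟨n, hn⟩ := Set.mem_iUnion.1 hq
            have q1 : q ∈ B (n + 1) := by
              rw [Bs]
              exact s5 _ (Bok n) ⟨hn, h2 W c hcW q (Relation.ReflTransGen.tail r1 r2)⟩
            exact s3 _ (Bok (n + 1)) q q1 p (h4 _ _ (fun t ht =>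
              Or.inr (Set.mem_iUnion.2 ⟨n + 1, ht⟩)) ih) r2.1.symm
        · exact h2 _ p ih q (Relation.ReflTransGen.single ⟨r2.1, hq⟩)
    exact h0 _ a (all a (h3 W c hcW a (b0.2.2.1 ha)))
      (Or.inr (Set.mem_iUnion.2 ⟨0, s2 _ (Bok 0) ha⟩))
  let Good : Set V → Prop := fun B => #B ≤ κ ∧ Conn X B ∧ Touch B
  have nxt : ∀ T : Set (Set V), #T ≤ κ → (∀ B ∈ T, Good B) → ∃ B', Good B' ∧
      ∀ B ∈ T, Disjoint B B' ∧ ∃ b ∈ B, ∃ c ∈ B', X.Adj b c := by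
    intro T hT hG
    have hW : #(⋃ B : T, B.1) ≤ κ := iun _ _ hT fun B => (hG _ B.2).1
    have : ∀ B : T, ∃ c ∈ β (⋃ B : T, B.1), ∃ b ∈ B.1, X.Adj b c := fun B => by
      obtain ⟨b, hb, c, hc, h⟩ := (hG _ B.2).2.2 _ hW (Set.subset_iUnion (fun B : T => B.1) B)
      exact ⟨c, hc, b, hb, h⟩
    choose c c1 c2 using this
    obtain ⟨B', b1, b2, b3, b4, b5⟩ := touch _ (Set.range c) hW (mk_range_le.trans hT)
      (by rintro _ ⟨B, rfl⟩; exact c1 B)
    refine ⟨B', ⟨b1, b4, b5⟩, fun B hB => ⟨Set.disjoint_left.2 fun x hx hx' =>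
      h0 _ x (b3 hx') (Set.mem_iUnion.2 ⟨⟨B, hB⟩, hx⟩), ?_⟩⟩
    obtain ⟨b, hb, h⟩ := c2 ⟨B, hB⟩
    exact ⟨b, hb, _, b2 ⟨⟨B, hB⟩, rfl⟩, h⟩
  choose! nx n1 n2 using nxt
  obtain ⟨lo, wf⟩ := exists_wellOrder U
  let B : U → Set V := (wellFounded_lt (α := U)).fix (C := fun _ => Set V)
    (fun u f => nx (Set.range fun v : {v // v < u} => f v.1 v.2))
  have hB : ∀ u, B u = nx (Set.range fun v : {v // v < u} => B v.1) := fun u =>
    (wellFounded_lt (α := U)).fix_eq _ u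
  have hT : ∀ u, #(Set.range fun v : {v // v < u} => B v.1) ≤ κ := fun u =>
    mk_range_le.trans ((mk_subtype_le _).trans hU)
  have good : ∀ u, Good (B u) := by
    intro u
    induction u using WellFoundedLT.induction with
    | _ u ih =>
      rw [hB]
      exact n1 _ (hT u) (by rintro _ ⟨v, rfl⟩; exact ih v.1 v.2)
  have lt : ∀ u v, v < u → Disjoint (B v) (B u) ∧ ∃ b ∈ B v, ∃ c ∈ B u, X.Adj b c := by
    intro u v h
    rw [hB u]
    exact n2 _ (hT u) (by rintro _ ⟨v, rfl⟩; exact good _) _ ⟨⟨v, h⟩, rfl⟩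
  refine ⟨B, fun u => (good u).2.1, fun u v huv => ?_⟩
  rcases lt_or_gt_of_ne huv with h | h
  · exact lt v u h
  · obtain ⟨d, b, hb, c, hc, e⟩ := lt u v h
    exact ⟨d.symm, c, hc, b, hb, e.symm⟩

end Pool.Agent.H.MP_e19d8e_co
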