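import Pool.Agent.H.MP_e19d8e_co.A
import Pool.Agent.H.MP_0f290c_co.B

/-!
A graph whose automorphism group is a large Clifford group has a large complete minor.
-/

namespace Pool.Agent.H.MP_e19d8e_co

open Cardinal

theorem group_minor {G : Type} [Group G] (w : G) (hw1 : w ≠ 1) (hww : w * w = 1)
    (hc : ∀ g, w * g = g * w) (β : G → G → ZMod 2)
    (β0 : ∀ g h, β g h = 0 → g * h = h * g) (β1 : ∀ g h, β g h = 1 → g * h = h * g * w)
    (βm : ∀ g h k, β (g * h) k = β g k + β h k) (βs : ∀ g h, β g h = β h g)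
    (βd : ∀ g, β g g = 0)
    (κ : Cardinal.{0}) (hκ : ℵ₀ ≤ κ) (A : Type) (hA : Order.succ κ < #A) (ε : A → G)
    (hε : ∀ x y, x ≠ y → β (ε x) (ε y) = 1)
    {V : Type} (X : SimpleGraph V) (e : G ≃* (X ≃g X)) (U : Type) (hU : #U ≤ κ) :
    ∃ B : U → Set V, (∀ u, (X.induce (B u)).Connected) ∧ ∀ u v, u ≠ v → Disjoint (B u) (B v) ∧
      ∃ b ∈ B u, ∃ c ∈ B v, X.Adj b c := by
  classical
  have z2 : ∀ z : ZMod 2, z = 0 ∨ z = 1 := by decide
  have β1l : ∀ k, β 1 k = 0 := fun k => by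
    have := βm 1 1 k
    rw [mul_one] at this
    exact left_eq_add.1 this
  have βi : ∀ g k, β g⁻¹ k = β g k := fun g k => by
    have := βm g⁻¹ g k
    rw [inv_mul_cancel, β1l] at this
    revert this
    generalize β g⁻¹ k = s, β g k = t
    revert s t; decide
  have βm' : ∀ g h k, β k (g * h) = β k g + β k h := fun g h k => by
    rw [βs, βm, βs g, βs h]
  have βi' : ∀ g k, β k g⁻¹ = β k g := fun g k => by rw [βs, βi, βs]
  have βw : ∀ g, β w g = 0 := fun g => by
    rcases z2 (β w g) with h | h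
    · exact h
    · have := β1 _ _ h
      rw [hc g] at this
      exact absurd (by simpa using this) hw1
  have hconj : ∀ g x : G, x⁻¹ * g * x = g ∨ x⁻¹ * g * x = g * w := fun g x => by
    rcases z2 (β g x) with h | h
    · left; rw [mul_assoc, β0 _ _ h, inv_mul_cancel_left]
    · right; rw [mul_assoc, β1 _ _ h, mul_assoc, inv_mul_cancel_left]
  have emul : ∀ g h u, e (g * h) u = e g (e h u) := fun g h u => by rw [map_mul]; rfl
  have eone : ∀ u, e 1 u = u := fun u => by rw [map_one]; rfl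
  have einv : ∀ g u, e g⁻¹ (e g u) = u := fun g u => by rw [← emul, inv_mul_cancel, eone]
  have eww : ∀ u, e w (e w u) = u := fun u => by rw [← emul, hww, eone]
  have ewc : ∀ g u, e w (e g u) = e g (e w u) := fun g u => by rw [← emul, hc, emul]
  have stinv : ∀ g u, e w u ≠ u → e w (e g u) ≠ e g u := fun g u h h' => by
    rw [ewc] at h'; exact h ((e g).injective h')
  obtain ⟨u0, hu0⟩ : ∃ u, e w u ≠ u := by
    by_contra h
    push Not at h
    apply hw1
    apply e.injective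
    rw [map_one]
    exact RelIso.ext h
  let Y : SimpleGraph V :=
    { Adj := fun p q => X.Adj p q ∧ e w p ≠ p ∧ e w q ≠ q
      symm := ⟨fun p q h => ⟨h.1.symm, h.2.2, h.2.1⟩⟩
      loopless := ⟨fun p h => X.irrefl h.1⟩ }
  have YX : Y ≤ X := fun p q h => h.1
  have reachSt : ∀ W p q, e w p ≠ p → Rc Y W p q → e w q ≠ q := by
    intro W p q hp h
    induction h with
    | refl => exact hp
    | tail _ h _ => exact h.1.2.2
  have transl : ∀ (g : G) (W W' : Set V), (∀ p, p ∉ W → e g p ∉ W') → ∀ p q, Rc Y W p q →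
      Rc Y W' (e g p) (e g q) := by
    intro g W W' hW p q h
    induction h with
    | refl => exact Rc.refl _ _
    | tail _ h ih =>
      exact Relation.ReflTransGen.tail ih ⟨⟨(e g).map_adj_iff.2 h.1.1, stinv g _ h.1.2.1,
        stinv g _ h.1.2.2⟩, hW _ h.2⟩
  have tr0 : ∀ (g : G) p q, Rc Y ∅ p q → Rc Y ∅ (e g p) (e g q) := fun g =>
    transl g ∅ ∅ fun _ _ => Set.notMem_empty _
  let D : V → Prop := fun u => Rc Y ∅ u0 u ∨ Rc Y ∅ (e w u0) u
  have DW : ∀ u, D u → D (e w u) := by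
    rintro u (h | h)
    · exact Or.inr (tr0 w _ _ h)
    · have := tr0 w _ _ h
      rw [eww] at this; exact Or.inl this
  have DS : ∀ u, D u → e w u ≠ u := by
    rintro u (h | h)
    · exact reachSt _ _ _ hu0 h
    · exact reachSt _ _ _ (stinv w _ hu0) h
  let f : V → V := fun u => if D u then e w u else u
  have finv : Function.Involutive f := by
    intro u
    by_cases h : D u
    · simp only [f, if_pos h, if_pos (DW u h), eww]
    · simp only [f, if_neg h]
  have half : ∀ u v, X.Adj u v → D u → ¬ D v → X.Adj (e w u) v := by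
    intro u v h hu hv
    have : e w v = v := by
      by_contra h'
      have a : Y.Adj u v ∧ v ∉ (∅ : Set V) := ⟨⟨h, DS u hu, h'⟩, Set.notMem_empty _⟩
      exact hv (hu.imp (fun t => Relation.ReflTransGen.tail t a)
        (fun t => Relation.ReflTransGen.tail t a))
    rw [← this]; exact (e w).map_adj_iff.2 h
  have fadj : ∀ u v, X.Adj u v → X.Adj (f u) (f v) := by
    intro u v h
    by_cases hu : D u <;> by_cases hv : D v
    · simp only [f, if_pos hu, if_pos hv]; exact (e w).map_adj_iff.2 h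
    · simp only [f, if_pos hu, if_neg hv]; exact half u v h hu hv
    · simp only [f, if_neg hu, if_pos hv]; exact (half v u h.symm hv hu).symm
    · simp only [f, if_neg hu, if_neg hv]; exact h
  let σ : X ≃g X :=
    { toEquiv := finv.toPerm
      map_rel_iff' := fun {u v} => ⟨fun h => by
        have := fadj _ _ h
        change X.Adj (f (f u)) (f (f v)) at this
        rwa [finv u, finv v] at this, fadj u v⟩ }
  obtain ⟨g, hg⟩ := e.surjective σ
  have gu : ∀ u, e g u = f u := fun u => by rw [hg]; rfl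
  have g0 : e g u0 = e w u0 := by
    rw [gu]; exact if_pos (Or.inl (Rc.refl _ _))
  have cj : ∀ z, ¬ D (e z u0) → z⁻¹ * g * z = g * w := by
    intro z hz
    rcases hconj g z with h | h
    · exfalso
      have h1 : e g (e z u0) = e z u0 := by rw [gu]; exact if_neg hz
      have := congrArg (fun t => e t u0) h
      simp only [emul] at this
      rw [h1, einv, g0] at this
      exact hu0 this.symm
    · exact h
  have idx : ∀ x y, ¬ D (e x u0) → ¬ D (e y u0) → D (e (x * y) u0) := by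
    intro x y hx hy
    by_contra hxy
    have h1 := cj _ hxy
    have h2 : (x * y)⁻¹ * g * (x * y) = y⁻¹ * (x⁻¹ * g * x) * y := by group
    rw [h2, cj x hx] at h1
    have h3 : y⁻¹ * (g * w) * y = (y⁻¹ * g * y) * w := by
      rw [mul_assoc y⁻¹, mul_assoc g, hc y]; group
    rw [h3, cj y hy, mul_assoc, hww, mul_one] at h1
    exact hw1 (by simpa using h1)
  have hν : ℵ₀ ≤ Order.succ κ := hκ.trans (Order.le_succ κ)
  obtain ⟨Λ, hΛ, t0, ht0, htD⟩ : ∃ (Λ : Type) (_ : Order.succ κ < #Λ) (t : Λ → G),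
      (∀ x y, x ≠ y → β (t x) (t y) = 1) ∧ ∀ x, D (e (t x) u0) := by
    by_cases h : Order.succ κ < #{x | D (e (ε x) u0)}
    · exact ⟨_, h, fun x => ε x.1, fun x y hxy => hε _ _ fun t => hxy (Subtype.ext t), fun x => x.2⟩
    · rw [not_lt] at h
      have h2 : ∀ x0 : A, Order.succ κ < #{x | ¬ D (e (ε x) u0) ∧ x ≠ x0} := by
        intro x0
        by_contra h'
        rw [not_lt] at h'
        have : (Set.univ : Set A) ⊆ insert x0 ({x | D (e (ε x) u0)} ∪
            {x | ¬ D (e (ε x) u0) ∧ x ≠ x0}) := fun x _ => by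
          by_cases a : x = x0
          · exact Or.inl a
          · by_cases b : D (e (ε x) u0)
            · exact Or.inr (Or.inl b)
            · exact Or.inr (Or.inr ⟨b, a⟩)
        have h3 := (mk_le_mk_of_subset this).trans (mk_insert_le.trans (add_le_of_le hν
          ((mk_union_le _ _).trans (add_le_of_le hν h h')) (one_le_aleph0.trans hν)))
        rw [mk_univ] at h3
        exact absurd hA (not_lt.2 h3)
      obtain ⟨a⟩ : Nonempty A := mk_ne_zero_iff.1 (ne_of_gt (lt_of_le_of_lt (zero_le) hA))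
      obtain ⟨x0, hx0⟩ : Nonempty {x | ¬ D (e (ε x) u0) ∧ x ≠ a} :=
        mk_ne_zero_iff.1 (ne_of_gt (lt_of_le_of_lt (zero_le) (h2 a)))
      refine ⟨_, h2 x0, fun x => ε x0 * ε x.1, fun x y hxy => ?_, fun x => idx _ _ hx0.1 x.2.1⟩
      rw [βm, βm', βm', βd, hε _ _ y.2.2.symm, hε _ _ x.2.2, hε _ _ fun t => hxy (Subtype.ext t)]
      decide
  obtain ⟨t, ht, htR⟩ : ∃ t : Λ → G, (∀ x y, x ≠ y → β (t x) (t y) = 1) ∧
      ∀ x, Rc Y ∅ u0 (e (t x) u0) := by
    refine ⟨fun x => if Rc Y ∅ u0 (e (t0 x) u0) then t0 x else w * t0 x, fun x y hxy => ?_,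
      fun x => ?_⟩
    · have := ht0 x y hxy
      have βw' : ∀ g, β g w = 0 := fun g => by rw [βs, βw]
      dsimp only
      split_ifs <;> simp only [βm, βm', βw, βw', zero_add, this]
    · dsimp only
      split_ifs with h
      · exact h
      · have := tr0 w _ _ ((htD x).resolve_left h)
        rwa [eww, ← emul] at this
  have big : ∀ s : Set Λ, #s ≤ Order.succ κ → ∃ x, x ∉ s := fun s hs => by
    by_contra h
    push Not at h
    rw [Set.eq_univ_of_forall h, mk_univ] at hs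
    exact absurd hΛ (not_lt.2 hs)
  have fin_le : ∀ s : Set Λ, s.Finite → #s ≤ κ := fun s hs => hs.lt_aleph0.le.trans hκ
  have Rw : Rc Y ∅ u0 (e w u0) := by
    obtain ⟨x, -⟩ := big ∅ (by simp)
    obtain ⟨y, hy⟩ := big {x} ((fin_le _ (Set.finite_singleton x)).trans (Order.le_succ κ))
    have h1 := β1 _ _ (ht x y (Ne.symm hy))
    have a1 : Rc Y ∅ u0 (e (t x * t y) u0) := by
      rw [emul]; exact (htR x).trans (tr0 _ _ _ (htR y))
    have a2 : Rc Y ∅ u0 (e (t y * t x) u0) := by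
      rw [emul]; exact (htR y).trans (tr0 _ _ _ (htR x))
    have := tr0 (t y * t x)⁻¹ _ _ ((a2.symm (Set.notMem_empty _)).trans a1)
    rwa [einv, h1, emul _ w, einv] at this
  have bad1 : ∀ p u, e w p ≠ p → {x | e (t x) p = u}.Finite := by
    intro p u hp
    by_contra hinf
    have hinf : {x | e (t x) p = u}.Infinite := hinf
    obtain ⟨x, hx⟩ := hinf.nonempty
    obtain ⟨y, hy, hyx⟩ := (hinf.diff (Set.finite_singleton x)).nonempty
    obtain ⟨z, hz, hzx⟩ := (hinf.diff ((Set.finite_singleton y).insert x)).nonempty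
    have hzx' : z ≠ x := fun h => hzx (Or.inl h)
    have hzy : z ≠ y := fun h => hzx (Or.inr h)
    have hyx' : y ≠ x := hyx
    have fa : e ((t x)⁻¹ * t y) p = p := by rw [emul, hy, ← hx, einv]
    have fb : e ((t x)⁻¹ * t z) p = p := by rw [emul, hz, ← hx, einv]
    have hb : β ((t x)⁻¹ * t y) ((t x)⁻¹ * t z) = 1 := by
      rw [βm, βm', βm', βi, βi, βi', βi', βd, ht _ _ hzx'.symm, ht _ _ hyx', ht _ _ hzy.symm]
      decide
    have := congrArg (fun s => e s p) (β1 _ _ hb)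
    rw [emul, fb, fa, ← hc, emul, emul, fa, fb] at this
    exact hp this.symm
  have bad : ∀ (ν : Cardinal.{0}), ℵ₀ ≤ ν → ∀ P W : Set V, #P ≤ ν → #W ≤ ν →
      (∀ p ∈ P, e w p ≠ p) → #{x | ∃ p ∈ P, e (t x) p ∈ W} ≤ ν := by
    intro ν hν P W hP hW hS
    have : {x | ∃ p ∈ P, e (t x) p ∈ W} ⊆ ⋃ q : P × W, {x | e (t x) q.1 = q.2} := by
      rintro x ⟨p, hp, h⟩
      exact Set.mem_iUnion.2 ⟨(⟨p, hp⟩, ⟨_, h⟩), rfl⟩
    refine (mk_le_mk_of_subset this).trans ((mk_iUnion_le _).trans (mul_le_of_le hν ?_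
      (ciSup_le' fun q => (bad1 _ _ (hS _ q.1.2)).lt_aleph0.le.trans hν)))
    rw [mk_prod, lift_id, lift_id]
    exact mul_le_of_le hν hP hW
  have claim1 : ∀ W : Set V, #W ≤ κ → ∀ s : Set Λ, #s ≤ Order.succ κ → ∃ a, a ∉ W ∧
      #{x | x ∈ s ∧ ¬ Rc Y W a (e (t x) u0)} ≤ κ := by
    intro W hW s hs
    choose P p1 p2 p3 p4 p5 using fun x => (htR x).path
    obtain ⟨z, hz⟩ := big _ (bad _ hν ({u0} ∪ ⋃ x : s, P x) W ((mk_union_le _ _).trans
      (add_le_of_le hν (by simpa using one_le_aleph0.trans hν) ((mk_iUnion_le _).trans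
        (mul_le_of_le hν hs (ciSup_le' fun x => (p1 _).lt_aleph0.le.trans hν)))))
      (hW.trans (Order.le_succ κ)) (by
        rintro p (rfl | hp)
        · exact hu0
        · obtain ⟨x, hx⟩ := Set.mem_iUnion.1 hp
          exact reachSt _ _ _ hu0 (p4 _ p hx)))
    have hz' : ∀ p, p ∈ ({u0} ∪ ⋃ x : s, P x : Set V) → e (t z) p ∉ W := fun p hp h =>
      hz ⟨p, hp, h⟩
    refine ⟨e (t z) u0, hz' _ (Or.inl rfl), ?_⟩
    obtain ⟨Q, q1, q2, q3, q4, q5⟩ := ((htR z).trans (tr0 (t z) _ _ Rw)).path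
    have hb := bad κ hκ Q W (q1.lt_aleph0.le.trans hκ) hW fun p hp => reachSt _ _ _ hu0 (q4 p hp)
    refine (mk_le_mk_of_subset (t := insert z {x | ∃ p ∈ Q, e (t x) p ∈ W}) ?_).trans
      (mk_insert_le.trans (add_le_of_le hκ hb (one_le_aleph0.trans hκ)))
    rintro x ⟨hx, hn⟩
    by_contra hx'
    have xz : x ≠ z := fun h => hx' (Or.inl h)
    have xq : ∀ p, p ∉ Qᶜ → e (t x) p ∉ W := fun p hp h => hx' (Or.inr ⟨p, not_not.1 hp, h⟩)
    have r1 := transl (t z) (P x)ᶜ W (fun p hp => hz' p (Or.inr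
      (Set.mem_iUnion.2 ⟨⟨x, hx⟩, not_not.1 hp⟩))) _ _ (p5 x _ (p3 x))
    have r2 := transl (t x) Qᶜ W xq _ _ (q5 _ q3)
    have e1 : e (t x) (e (t z) (e w u0)) = e (t z) (e (t x) u0) := by
      rw [← emul, β1 _ _ (ht x z xz), emul, eww, emul]
    rw [e1] at r2
    exact hn (r1.trans (r2.symm (xq _ (not_not.2 q2))))
  have pick : ∀ s b : Set Λ, #s = Order.succ κ → #b ≤ κ → ∃ x ∈ s, x ∉ b := by
    intro s b hs hb
    by_contra h
    push Not at h
    have := (mk_le_mk_of_subset (h : s ⊆ b)).trans hb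
    rw [hs] at this
    exact absurd this (not_le.2 (Order.lt_succ κ))
  obtain ⟨s0, hs0⟩ : ∃ s : Set Λ, #s = Order.succ κ := le_mk_iff_exists_set.1 hΛ.le
  obtain ⟨B, b1, b2⟩ := haven (X := Y) κ hκ
    (fun W => {a | a ∉ W ∧ #{x | ¬ Rc Y W a (e (t x) u0)} ≤ κ}) (by
      intro W hW
      obtain ⟨a, ha, h⟩ := claim1 W hW s0 hs0.le
      refine ⟨a, ha, ?_⟩
      by_contra hn
      obtain ⟨s1, hs1, hs1'⟩ := le_mk_iff_exists_subset.1 (Order.succ_le_of_lt (not_le.1 hn))
      obtain ⟨a', ha', h'⟩ := claim1 W hW (s0 ∪ s1) ((mk_union_le _ _).trans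
        (add_le_of_le hν hs0.le hs1'.le))
      obtain ⟨x, hx, hx'⟩ := pick s0 _ hs0 ((mk_union_le _ _).trans (add_le_of_le hκ h h'))
      obtain ⟨y, hy, hy'⟩ := pick s1 _ hs1' h'
      have r1 : Rc Y W a (e (t x) u0) := not_not.1 fun r => hx' (Or.inl ⟨hx, r⟩)
      have r2 : Rc Y W a' (e (t x) u0) := not_not.1 fun r => hx' (Or.inr ⟨Or.inl hx, r⟩)
      have r3 : Rc Y W a' (e (t y) u0) := not_not.1 fun r => hy' ⟨Or.inr hy, r⟩
      exact hs1 hy (r1.trans ((r2.symm ha').trans r3)))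
    (fun W a ha => ha.1)
    (fun W a ha b h => ⟨h.notMem ha.1, le_trans (mk_le_mk_of_subset fun x hx r =>
      hx ((h.symm ha.1).trans r)) ha.2⟩)
    (by
      intro W a ha b hb
      obtain ⟨x, -, hx⟩ := pick s0 _ hs0 ((mk_union_le _ _).trans (add_le_of_le hκ ha.2 hb.2))
      have r1 : Rc Y W a (e (t x) u0) := not_not.1 fun r => hx (Or.inl r)
      have r2 : Rc Y W b (e (t x) u0) := not_not.1 fun r => hx (Or.inr r)
      exact r1.trans (r2.symm hb.1))
    (fun W W' h a ha => ⟨fun r => ha.1 (h r), le_trans (mk_le_mk_of_subset fun x hx r =>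
      hx (Rc.mono r h)) ha.2⟩) U hU
  refine ⟨B, fun u => (b1 u).connected YX, fun u v huv => ⟨(b2 u v huv).1, ?_⟩⟩
  obtain ⟨b, hb, c, hc, h⟩ := (b2 u v huv).2
  exact ⟨b, hb, c, hc, h.1⟩

open Pool.Agent.H.MP_0f290c_co in
theorem exists_group (U : Type) : ∃ (G : Type) (_ : Group G), ∀ (V : Type) (X : SimpleGraph V),
    Nonempty (G ≃* (X ≃g X)) →
    ∃ B : U → Set V, (∀ u, (X.induce (B u)).Connected) ∧ ∀ u v, u ≠ v → Disjoint (B u) (B v) ∧
      ∃ b ∈ B u, ∃ c ∈ B v, X.Adj b c := by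
  classical
  set κ := max #U ℵ₀ with hκ
  let A := (Order.succ (Order.succ κ)).ord.ToType
  have hA : #A = Order.succ (Order.succ κ) := by simp [A]
  refine ⟨Cl A, inferInstance, fun V X ⟨e⟩ => ?_⟩
  refine group_minor (G := Cl A) ⟨0, 1⟩ ?_ ?_ ?_ (fun g h => gam A g.v h.v + gam A h.v g.v)
    ?_ ?_ ?_ ?_ ?_ κ (le_max_right _ _) A (by rw [hA]; exact Order.lt_succ _)
    (fun x => ⟨Finsupp.single x 1, 0⟩) ?_ X e U (le_max_left _ _)
  · intro h
    have : (1 : ZMod 2) = 0 := congrArg Cl.c h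
    exact absurd this (by decide)
  · refine Cl.ext (by simp [mul_v, one_v]) ?_
    simp only [mul_c, one_c, map_zero, add_zero]; decide
  · intro g
    exact Cl.ext (by simp [mul_v]) (by simp [mul_c, add_comm])
  · intro g h H
    refine Cl.ext (by simp [mul_v, add_comm]) ?_
    rw [mul_c, mul_c]
    revert H
    generalize gam A g.v h.v = a, gam A h.v g.v = b, g.c = c, h.c = d
    revert a b c d; decide
  · intro g h H
    refine Cl.ext (by simp [mul_v, add_comm]) ?_
    simp only [mul_c, map_zero]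
    revert H
    generalize gam A g.v h.v = a, gam A h.v g.v = b, g.c = c, h.c = d
    revert a b c d; decide
  · intro g h k
    simp only [mul_v, map_add, LinearMap.add_apply]; ring
  · intro g h; exact add_comm _ _
  · intro g
    generalize gam A g.v g.v = a
    revert a; decide
  · intro x y hxy
    simp only [gam, Finsupp.linearCombination_single, one_smul]
    rcases lt_or_gt_of_ne hxy with h | h
    · simp [h, not_lt.2 h.le]
    · simp [h, not_lt.2 h.le]

theorem main :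
    ∀ (C : ∀ (V : Type), SimpleGraph V → Prop),
      (∀ (V : Type) (X : SimpleGraph V), C V X →
        ∀ (U : Type) (Y : SimpleGraph U),
          (∃ (W : Type) (Z : SimpleGraph W) (f : V → W),
            (∀ a b : W, Z.Adj a b ↔ (a ≠ b ∧ ∃ x y : V, X.Adj x y ∧ f x = a ∧ f y = b)) ∧
            (∀ w : W, (X.induce (f ⁻¹' {w})).Connected) ∧
            ∃ g : U → W, Function.Injective g ∧ ∀ a b : U, Y.Adj a b → Z.Adj (g a) (g b)) →
          C U Y) →
      (∀ (G : Type) [Group G], ∃ (V : Type) (X : SimpleGraph V), C V X ∧ Nonempty (G ≃* (X ≃g X))) →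
      ∀ (V : Type) (X : SimpleGraph V), C V X := by
  classical
  intro C hC hU U Y
  obtain ⟨G, _, hG⟩ := exists_group U
  obtain ⟨V, X, hX, he⟩ := hU G
  obtain ⟨B, b1, b2⟩ := hG V X he
  let f : V → U ⊕ {v : V // ¬ ∃ u, v ∈ B u} :=
    fun v => if h : ∃ u, v ∈ B u then Sum.inl h.choose else Sum.inr ⟨v, h⟩
  have fl : ∀ v u, f v = Sum.inl u ↔ v ∈ B u := by
    intro v u
    by_cases h : ∃ u, v ∈ B u
    · simp only [f, dif_pos h, Sum.inl.injEq]
      refine ⟨fun e => e ▸ h.choose_spec, fun hv => ?_⟩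
      by_contra hne
      exact Set.disjoint_left.1 (b2 _ _ hne).1 h.choose_spec hv
    · simp only [f, dif_neg h]
      exact ⟨fun e => (by cases e), fun hv => absurd ⟨u, hv⟩ h⟩
  let Z : SimpleGraph (U ⊕ {v : V // ¬ ∃ u, v ∈ B u}) :=
    { Adj := fun a b => a ≠ b ∧ ∃ x y : V, X.Adj x y ∧ f x = a ∧ f y = b
      symm := ⟨fun a b ⟨h, x, y, h1, h2, h3⟩ => ⟨h.symm, y, x, h1.symm, h3, h2⟩⟩
      loopless := ⟨fun a h => h.1 rfl⟩ }
  refine hC V X hX U Y ⟨_, Z, f, fun a b => Iff.rfl, ?_, Sum.inl, Sum.inl_injective, ?_⟩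
  · rintro (u | ⟨v, hv⟩)
    · have : f ⁻¹' {Sum.inl u} = B u := Set.ext fun v => fl v u
      rw [this]; exact b1 u
    · have : f ⁻¹' {Sum.inr ⟨v, hv⟩} = {v} := by
        ext x
        simp only [Set.mem_preimage, Set.mem_singleton_iff]
        constructor
        · intro h
          by_cases hx : ∃ u, x ∈ B u
          · simp only [f, dif_pos hx] at h; cases h
          · simp only [f, dif_neg hx, Sum.inr.injEq, Subtype.mk.injEq] at h; exact h
        · rintro rfl; simp only [f, dif_neg hv]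
      rw [this]
      haveI : Nonempty ({v} : Set V) := ⟨⟨v, rfl⟩⟩
      exact ⟨fun x y => by rw [Subsingleton.elim x y]⟩
  · intro a b hab
    obtain ⟨x, hx, y, hy, h⟩ := (b2 a b hab.ne).2
    exact ⟨fun e => hab.ne (Sum.inl_injective e), x, y, h, (fl _ _).2 hx, (fl _ _).2 hy⟩

end Pool.Agent.H.MP_e19d8e_co
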